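import Pool.Agent.V7H56.PB.Main

/-! # Values of tuples of polynomials at palindromes: prime values, all palindromes -/

set_option autoImplicit false

namespace Pool.Agent.V7H56.PB

open Finset Polynomial Filter Topology

lemma growth (f : ℤ[X]) (hd : 0 < f.natDegree) : ∃ K n₁ : ℕ, ∀ n : ℕ, n₁ ≤ n →
    n ≤ K * (f.eval (n : ℤ)).natAbs := by
  obtain ⟨g, hg⟩ : ∃ g : ℝ[X], g = f.map (Int.castRingHom ℝ) := ⟨_, rfl⟩
  have hdeg : (X : ℝ[X]).degree ≤ g.degree := by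
    rw [degree_X, hg, degree_map_eq_of_injective (Int.castRingHom ℝ).injective_int]
    have h1 : f ≠ 0 := by
      rintro rfl
      simp at hd
    rw [degree_eq_natDegree h1]
    exact_mod_cast hd
  have h1 := Polynomial.isBigO_atTop_of_degree_le (X : ℝ[X]) g hdeg
  obtain ⟨K, hK⟩ := h1.bound
  have h2 := tendsto_natCast_atTop_atTop.eventually hK
  obtain ⟨n₁, hn⟩ := eventually_atTop.1 h2
  refine ⟨⌈K⌉₊, n₁, fun n hn' => ?_⟩
  have h3 := hn n hn'
  have h4 : eval (n : ℝ) g = ((f.eval (n : ℤ) : ℤ) : ℝ) := by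
    rw [hg]
    have h5 := Polynomial.eval_intCast_map (Int.castRingHom ℝ) f (n : ℤ)
    simp at h5 ⊢
  rw [eval_X, h4, Real.norm_natCast, Real.norm_eq_abs, ← Int.cast_abs, Int.abs_eq_natAbs, Int.cast_natCast] at h3
  have h6 : (n : ℝ) ≤ ⌈K⌉₊ * ((f.eval (n : ℤ)).natAbs : ℝ) :=
    h3.trans (mul_le_mul_of_nonneg_right (Nat.le_ceil K) (Nat.cast_nonneg _))
  exact_mod_cast h6

/-- large prime values are rough -/
lemma prime_rough {b : ℕ} (hb : 2 ≤ b) {k : ℕ} (F : Fin k → ℤ[X]) (hdeg : ∀ i, 0 < (F i).natDegree) {B : ℕ}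
    (hB : 1 ≤ B) : ∃ L₁ : ℕ, ∀ L N x n : ℕ, L₁ ≤ L → L < N → n ∈ Wd b N L x →
    ∀ i, Prime ((F i).eval (n : ℤ)) → Rough B (b ^ L) ((F i).eval (n : ℤ)) := by
  have h0 : ∀ i, ∃ K n₁ : ℕ, ∀ n : ℕ, n₁ ≤ n → n ≤ K * ((F i).eval (n : ℤ)).natAbs :=
    fun i => growth (F i) (hdeg i)
  choose K n₁ hK using h0
  refine ⟨∑ i, (K i + n₁ i), fun L N x n hL hN hn i hP p hp hd => ?_⟩
  have h1 : K i + n₁ i ≤ L := by
    refine le_trans ?_ hL
    exact single_le_sum (f := fun i => K i + n₁ i) (fun _ _ => Nat.zero_le _) (mem_univ i)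
  rw [Wd, mem_filter, mem_Ico] at hn
  have h2 := hn.1.1
  have h3 : L < 2 ^ L := Nat.lt_two_pow_self
  have h4 : 2 ^ L ≤ b ^ L := Nat.pow_le_pow_left hb _
  have h5 : b ^ L * b ^ L < n := by
    refine lt_of_lt_of_le ?_ h2
    rw [← pow_add]
    exact Nat.pow_lt_pow_right (by omega) (by omega)
  have h6 : n₁ i ≤ n := by nlinarith
  have h7 := hK i n h6
  have h8 : K i < b ^ L := by omega
  have h9 : b ^ L < ((F i).eval (n : ℤ)).natAbs := by
    by_contra hcon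
    push Not at hcon
    have h10 : K i * ((F i).eval (n : ℤ)).natAbs ≤ b ^ L * b ^ L := Nat.mul_le_mul h8.le hcon
    omega
  have hPn : ((F i).eval (n : ℤ)).natAbs.Prime := Int.prime_iff_natAbs_prime.1 hP
  have h11 : p = ((F i).eval (n : ℤ)).natAbs :=
    (Nat.prime_dvd_prime_iff_eq hp hPn).1 (Int.natCast_dvd.1 hd)
  rw [← h11] at h9
  exact h9.trans_le (Nat.le_self_pow (by omega) _)

/-- the `b`-palindromes with exactly `2 N + 1` digits -/
def Pa (b N : ℕ) : Finset ℕ :=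
  (Ico (b ^ (2 * N)) (b ^ (2 * N + 1))).filter (fun n : ℕ => (Nat.digits b n).reverse = Nat.digits b n)

open Classical in
/-- all the statements -/
theorem final {b : ℕ} (hb : 2 ≤ b) {k : ℕ} (F : Fin k → ℤ[X]) (hirr : ∀ i, Irreducible (F i))
    (hdeg : ∀ i, 0 < (F i).natDegree) (hne : ∀ i j, i ≠ j → ¬ Associated (F i) (F j))
    (hloc : ∀ p : ℕ, p.Prime → ¬ p ∣ 2 * b → ∃ r : ℕ, ∀ i, ¬ (p : ℤ) ∣ (F i).eval (r : ℤ)) :
    ∃ c C : ℝ, 0 < c ∧ 0 < C ∧ ∃ B L₀ : ℕ,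
    (∀ L N x : ℕ, L₀ ≤ L → L < N → b ^ (2 * N) ≤ x → x < b ^ (2 * N + 1) →
      (((Wd b N L x).filter (fun n : ℕ => ∀ i, Rough B (b ^ L) ((F i).eval (n : ℤ)))).card : ℝ) ≤
        C * (b : ℝ) ^ L / (L : ℝ) ^ k ∧
      (((Wd b N L x).filter (fun n : ℕ => ∀ i, Prime ((F i).eval (n : ℤ)))).card : ℝ) ≤
        C * (b : ℝ) ^ L / (L : ℝ) ^ k ∧
      (∀ e : ℕ, e < b → (∀ i, IsCoprime ((F i).eval ((x / b ^ (2 * N) : ℕ) : ℤ)) (b : ℤ)) →
        (Even b ∨ ∀ i, Odd ((F i).eval (e : ℤ))) →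
        c * (b : ℝ) ^ L / (L : ℝ) ^ k ≤ (((Wd b N L x).filter (fun n : ℕ => n / b ^ N % b = e ∧ ∀ i,
          (F i).eval (n : ℤ) ≠ 0 ∧ Rough B (b ^ L) ((F i).eval (n : ℤ)) ∧
          ((F i).eval (n : ℤ)).natAbs.primeFactorsList.length * L ≤ B * N)).card : ℝ))) ∧
    (∀ N : ℕ, L₀ < N →
      (((Pa b N).filter (fun n : ℕ => ∀ i, Prime ((F i).eval (n : ℤ)))).card : ℝ) ≤
        C * (b : ℝ) ^ N / (N : ℝ) ^ k ∧
      (∀ d e : ℕ, 1 ≤ d → d < b → e < b → (∀ i, IsCoprime ((F i).eval (d : ℤ)) (b : ℤ)) →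
        (Even b ∨ ∀ i, Odd ((F i).eval (e : ℤ))) →
        c * (b : ℝ) ^ N / (N : ℝ) ^ k ≤ (((Pa b N).filter (fun n : ℕ => ∀ i,
          (F i).eval (n : ℤ) ≠ 0 ∧
          ((F i).eval (n : ℤ)).natAbs.primeFactorsList.length ≤ 2 * B)).card : ℝ))) := by
  classical
  obtain ⟨c, C, hc, hC, B, L₀, hB, hmain⟩ := core hb F hirr hdeg hne hloc
  obtain ⟨L₁, hL₁⟩ := prime_rough hb F hdeg hB
  have hbR : (2 : ℝ) ≤ b := by exact_mod_cast hb
  have hb0 : (0 : ℝ) < b := by linarith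
  have hprime : ∀ L N x : ℕ, L₀ + L₁ + 2 ≤ L → L < N → b ^ (2 * N) ≤ x → x < b ^ (2 * N + 1) →
      (((Wd b N L x).filter (fun n : ℕ => ∀ i, Prime ((F i).eval (n : ℤ)))).card : ℝ) ≤
        C * (b : ℝ) ^ L / (L : ℝ) ^ k := by
    intro L N x hL hN h1 h2
    refine le_trans ?_ (hmain L N x (by omega) hN h1 h2).1
    rw [Nat.cast_le]
    apply card_le_card
    intro n hn
    rw [mem_filter] at hn ⊢
    exact ⟨hn.1, fun i => hL₁ L N x n (by omega) hN hn.1 i (hn.2 i)⟩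
  -- comparison of `N - 1` and `N`
  have hcmp : ∀ N : ℕ, 2 ≤ N → ((N - 1 : ℕ) : ℝ) ^ k ≤ (N : ℝ) ^ k ∧
      (N : ℝ) ^ k ≤ 2 ^ k * ((N - 1 : ℕ) : ℝ) ^ k ∧ (0 : ℝ) < ((N - 1 : ℕ) : ℝ) ^ k ∧
      (b : ℝ) ^ N = b * (b : ℝ) ^ (N - 1) := by
    intro N hN
    refine ⟨?_, ?_, ?_, ?_⟩
    · exact pow_le_pow_left₀ (Nat.cast_nonneg _) (by exact_mod_cast Nat.sub_le _ _) k
    · rw [← mul_pow]
      apply pow_le_pow_left₀ (Nat.cast_nonneg _)
      have : N ≤ 2 * (N - 1) := by omega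
      exact_mod_cast this
    · have : 0 < N - 1 := by omega
      have : (0 : ℝ) < ((N - 1 : ℕ) : ℝ) := by exact_mod_cast this
      positivity
    · obtain ⟨M, rfl⟩ : ∃ M, N = M + 1 := ⟨N - 1, by omega⟩
      rw [Nat.add_sub_cancel, pow_succ]
      ring
  have hdivd : ∀ N d : ℕ, d * b ^ (2 * N) / b ^ (2 * N) = d := fun N d =>
    Nat.mul_div_cancel _ (by positivity)
  refine ⟨min c (c / b), max C (2 ^ k * C), lt_min hc (by positivity), lt_max_of_lt_left hC, B,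
    L₀ + L₁ + 2, ?_, ?_⟩
  · intro L N x hL hN h1 h2
    obtain ⟨g1, g2⟩ := hmain L N x (by omega) hN h1 h2
    have hL1 : 1 ≤ L := by omega
    have hLpos : (0 : ℝ) < L := by exact_mod_cast hL1
    have hCm : C * (b : ℝ) ^ L / (L : ℝ) ^ k ≤ max C (2 ^ k * C) * (b : ℝ) ^ L / (L : ℝ) ^ k := by
      apply div_le_div_of_nonneg_right _ (by positivity)
      exact mul_le_mul_of_nonneg_right (le_max_left _ _) (by positivity)
    refine ⟨g1.trans hCm, (hprime L N x hL hN h1 h2).trans hCm, fun e he hcop hodd =>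
      le_trans ?_ (g2 e he hcop hodd)⟩
    apply div_le_div_of_nonneg_right _ (by positivity)
    exact mul_le_mul_of_nonneg_right (min_le_left _ _) (by positivity)
  · intro N hN
    obtain ⟨q1, q2, q3, q4⟩ := hcmp N (by omega)
    have hN0 : (0 : ℝ) < (N : ℝ) ^ k := lt_of_lt_of_le q3 q1
    have hNN : N + (N - 1) + 1 = 2 * N := by omega
    constructor
    · have hsub : (Pa b N).filter (fun n : ℕ => ∀ i, Prime ((F i).eval (n : ℤ))) ⊆
          (Ico 1 b).biUnion (fun d : ℕ => (Wd b N (N - 1) (d * b ^ (2 * N))).filter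
            (fun n : ℕ => ∀ i, Prime ((F i).eval (n : ℤ)))) := by
        intro n hn
        rw [mem_filter, Pa, mem_filter, mem_Ico] at hn
        obtain ⟨⟨⟨g1, g2⟩, g3⟩, g4⟩ := hn
        rw [mem_biUnion]
        refine ⟨n / b ^ (2 * N), ?_, ?_⟩
        · rw [mem_Ico]
          refine ⟨Nat.div_pos g1 (by positivity), ?_⟩
          rw [Nat.div_lt_iff_lt_mul (by positivity), mul_comm, ← pow_succ]
          exact g2
        · rw [mem_filter, Wd, mem_filter, mem_Ico, hNN, hdivd]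
          exact ⟨⟨⟨g1, g2⟩, g3, rfl⟩, g4⟩
      have hone : ∀ d ∈ Ico 1 b, (((Wd b N (N - 1) (d * b ^ (2 * N))).filter
          (fun n : ℕ => ∀ i, Prime ((F i).eval (n : ℤ)))).card : ℝ) ≤
            C * (b : ℝ) ^ (N - 1) / ((N - 1 : ℕ) : ℝ) ^ k := by
        intro d hd
        rw [mem_Ico] at hd
        refine hprime (N - 1) N _ (by omega) (by omega) ?_ ?_
        · exact Nat.le_mul_of_pos_left _ hd.1
        · rw [pow_succ, mul_comm]
          exact Nat.mul_lt_mul_of_pos_left hd.2 (by positivity)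
      calc (((Pa b N).filter (fun n : ℕ => ∀ i, Prime ((F i).eval (n : ℤ)))).card : ℝ)
          ≤ ∑ d ∈ Ico 1 b, (((Wd b N (N - 1) (d * b ^ (2 * N))).filter
            (fun n : ℕ => ∀ i, Prime ((F i).eval (n : ℤ)))).card : ℝ) := by
            exact_mod_cast (card_le_card hsub).trans card_biUnion_le
        _ ≤ ∑ _d ∈ Ico 1 b, C * (b : ℝ) ^ (N - 1) / ((N - 1 : ℕ) : ℝ) ^ k := sum_le_sum hone
        _ = ((b - 1 : ℕ) : ℝ) * (C * (b : ℝ) ^ (N - 1) / ((N - 1 : ℕ) : ℝ) ^ k) := by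
            rw [sum_const, Nat.card_Ico, nsmul_eq_mul]
        _ ≤ (b : ℝ) * (C * (b : ℝ) ^ (N - 1) / ((N - 1 : ℕ) : ℝ) ^ k) := by
            apply mul_le_mul_of_nonneg_right _ (by positivity)
            exact_mod_cast Nat.sub_le _ _
        _ = C * (b : ℝ) ^ N / ((N - 1 : ℕ) : ℝ) ^ k := by
            rw [q4]
            ring
        _ ≤ 2 ^ k * C * (b : ℝ) ^ N / (N : ℝ) ^ k := by
            rw [div_le_div_iff₀ q3 hN0]
            have h5 : 0 ≤ C * (b : ℝ) ^ N := by positivity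
            have h6 := mul_le_mul_of_nonneg_left q2 h5
            linarith
        _ ≤ _ := by
            apply div_le_div_of_nonneg_right _ hN0.le
            exact mul_le_mul_of_nonneg_right (le_max_right _ _) (by positivity)
    · intro d e hd1 hdb he hcop hodd
      have hx : d * b ^ (2 * N) / b ^ (2 * N) = d := hdivd N d
      have g := (hmain (N - 1) N (d * b ^ (2 * N)) (by omega) (by omega)
        (Nat.le_mul_of_pos_left _ hd1) (by
          rw [pow_succ, mul_comm]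
          exact Nat.mul_lt_mul_of_pos_left hdb (by positivity))).2 e he (by
            rw [hx]
            exact hcop) hodd
      calc min c (c / b) * (b : ℝ) ^ N / (N : ℝ) ^ k ≤ c / b * (b : ℝ) ^ N / (N : ℝ) ^ k := by
            apply div_le_div_of_nonneg_right _ hN0.le
            exact mul_le_mul_of_nonneg_right (min_le_right _ _) (by positivity)
        _ = c * (b : ℝ) ^ (N - 1) / (N : ℝ) ^ k := by
            rw [q4]
            field_simp
        _ ≤ c * (b : ℝ) ^ (N - 1) / ((N - 1 : ℕ) : ℝ) ^ k :=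
            div_le_div_of_nonneg_left (by positivity) q3 q1
        _ ≤ _ := g
        _ ≤ _ := by
            rw [Nat.cast_le]
            apply card_le_card
            intro n hn
            rw [mem_filter, Wd, mem_filter] at hn
            rw [mem_filter, Pa, mem_filter]
            refine ⟨⟨hn.1.1, hn.1.2.1⟩, fun i => ⟨(hn.2.2 i).1, ?_⟩⟩
            have h5 := (hn.2.2 i).2.2
            have h6 : B * N ≤ B * (2 * (N - 1)) := Nat.mul_le_mul_left _ (by omega)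
            have h7 : ((F i).eval (n : ℤ)).natAbs.primeFactorsList.length * (N - 1) ≤ 2 * B * (N - 1) := by
              calc _ ≤ B * N := h5
                _ ≤ B * (2 * (N - 1)) := h6
                _ = _ := by ring
            exact Nat.le_of_mul_le_mul_right h7 (by omega)

end Pool.Agent.V7H56.PB
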