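import Pool.Agent.V7H56.PB.Prod

/-! # Values of tuples of polynomials at palindromes: the right order of magnitude -/

set_option autoImplicit false

namespace Pool.Agent.V7H56.PB

open Finset Polynomial Filter Topology
open Pool.Agent.R471.PP
open Pool.Agent.H410R2.ED (Pr)
open Pool.Agent.H623R3.PBT8 (coprime_pos)
open Pool.Agent.Y816.PS (VE VE_add VE_eq VE_surj VV VV_lt av av_lt av_out pal pal_eq pal_digits
  pal_reverse sum_lt sum_dig top_digit er er_nonneg)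

/-- the `b`-palindromes with exactly `2 N + 1` digits which have the `N - L` leading digits of `x` -/
def Wd (b N L x : ℕ) : Finset ℕ :=
  (Ico (b ^ (2 * N)) (b ^ (2 * N + 1))).filter (fun n =>
    (Nat.digits b n).reverse = Nat.digits b n ∧ n / b ^ (N + L + 1) = x / b ^ (N + L + 1))

/-- every prime factor `p` of `m` satisfies `p ^ B > y` -/
def Rough (B y : ℕ) (m : ℤ) : Prop := ∀ p : ℕ, p.Prime → (p : ℤ) ∣ m → y < p ^ B

/-- the digits of `VE` -/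
def ae (b N L x e : ℕ) (m : Fin L → Fin b × Fin 1) (j : ℕ) : ℕ := if j = 0 then e else av b N L x m j

lemma ae_lt {b : ℕ} (hb : 2 ≤ b) (N L x : ℕ) {e : ℕ} (he : e < b) (m : Fin L → Fin b × Fin 1) (j : ℕ) :
    ae b N L x e m j < b := by
  unfold ae
  split_ifs
  · exact he
  · exact av_lt hb _ _ _ _ _

lemma ae_out {b N L x e : ℕ} (m : Fin L → Fin b × Fin 1) {j : ℕ} (hj : L < j) :
    ae b N L x e m j = x / b ^ (N + j) % b := by
  unfold ae
  rw [if_neg (by omega), av_out m hj]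

lemma ae_top {b N L x e : ℕ} (hb : 2 ≤ b) (h : L + 1 ≤ N) (hx : x < b ^ (2 * N + 1)) (h0 : b ^ (2 * N) ≤ x)
    (m : Fin L → Fin b × Fin 1) : ae b N L x e m N ≠ 0 := by
  rw [ae_out m (by omega), top_digit hb hx]
  have : 0 < x / b ^ (2 * N) := Nat.div_pos h0 (by positivity)
  omega

lemma pal_div {b N L x : ℕ} (hb : 2 ≤ b) (h : L + 1 ≤ N) (hx : x < b ^ (2 * N + 1)) {a : ℕ → ℕ}
    (ha : ∀ i, a i < b) (hout : ∀ j, L < j → a j = x / b ^ (N + j) % b) :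
    pal b N a / b ^ (N + L + 1) = x / b ^ (N + L + 1) := by
  unfold pal
  rw [show 2 * N + 1 = (N + L + 1) + (N - L) by omega, sum_range_add]
  have h1 : ∀ j ∈ range (N - L), a (N - (N + L + 1 + j) + (N + L + 1 + j - N)) *
      b ^ (N + L + 1 + j) = b ^ (N + L + 1) * ((x / b ^ (N + L + 1) / b ^ j % b) * b ^ j) := by
    intro j _
    rw [show N - (N + L + 1 + j) + (N + L + 1 + j - N) = L + 1 + j by omega, hout _ (by omega),
      show N + (L + 1 + j) = N + L + 1 + j by ring, Nat.div_div_eq_div_mul, ← pow_add, pow_add b (N + L + 1) j]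
    ring
  rw [sum_congr rfl h1, ← mul_sum, sum_dig]
  have h2 : x / b ^ (N + L + 1) < b ^ (N - L) := by
    rw [Nat.div_lt_iff_lt_mul (by positivity), ← pow_add]
    rwa [show N - L + (N + L + 1) = 2 * N + 1 by omega]
  rw [Nat.mod_eq_of_lt h2]
  have h3 := sum_lt (b := b) (f := fun i => a ((N - i) + (i - N))) (fun i => ha _) (N + L + 1)
  rw [Nat.add_mul_div_left _ _ (by positivity), Nat.div_eq_of_lt h3, zero_add]

lemma pal_mid {b N : ℕ} (hb : 2 ≤ b) {a : ℕ → ℕ} (ha : ∀ i, a i < b) (h0 : a N ≠ 0) :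
    pal b N a / b ^ N % b = a 0 := by
  rw [← Nat.getD_digits _ _ hb, pal_digits hb ha h0, List.getD_eq_getElem _ _ (by simp; omega)]
  simp

lemma VE_pal (b N L x e : ℕ) (m : Fin L → Fin b × Fin 1) :
    VE b N L x e m = pal b N (ae b N L x e m) := rfl

lemma VE_lt {b N L x e : ℕ} (hb : 2 ≤ b) (he : e < b) (m : Fin L → Fin b × Fin 1) :
    VE b N L x e m < b ^ (2 * N + 1) := by
  rw [VE_pal]
  unfold pal
  exact sum_lt (fun i => ae_lt hb _ _ _ he _ _) _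

lemma VE_mem {b N L x e : ℕ} (hb : 2 ≤ b) (h : L + 1 ≤ N) (hx : x < b ^ (2 * N + 1)) (h0 : b ^ (2 * N) ≤ x)
    (he : e < b) (m : Fin L → Fin b × Fin 1) :
    VE b N L x e m ∈ Wd b N L x ∧ VE b N L x e m / b ^ N % b = e := by
  have h1 := VE_lt (N := N) (x := x) hb he m
  have h2 : VE b N L x e m / b ^ (N + L + 1) = x / b ^ (N + L + 1) := by
    rw [VE_pal]
    exact pal_div hb h hx (fun i => ae_lt hb _ _ _ he _ _) (fun j hj => ae_out m hj)
  have h3 : b ^ (2 * N) ≤ VE b N L x e m := by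
    have e1 : b ^ (N - L - 1) ≤ x / b ^ (N + L + 1) := by
      rw [Nat.le_div_iff_mul_le (by positivity), ← pow_add]
      rwa [show N - L - 1 + (N + L + 1) = 2 * N by omega]
    rw [← h2, Nat.le_div_iff_mul_le (by positivity), ← pow_add,
      show N - L - 1 + (N + L + 1) = 2 * N by omega] at e1
    exact e1
  refine ⟨?_, ?_⟩
  · unfold Wd
    rw [mem_filter, mem_Ico]
    refine ⟨⟨h3, h1⟩, ?_, h2⟩
    rw [VE_pal]
    exact pal_reverse hb (fun i => ae_lt hb _ _ _ he _ _) (ae_top hb h hx h0 m)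
  · rw [VE_pal, pal_mid (a := ae b N L x e m) hb (fun i => ae_lt hb _ _ _ he _ _) (ae_top hb h hx h0 m)]
    simp [ae]

lemma VE_mod {b N L x e : ℕ} (hb : 2 ≤ b) (h : L + 1 ≤ N) (hx : x < b ^ (2 * N + 1))
    (m : Fin L → Fin b × Fin 1) :
    ((b : ℤ)) ∣ (VE b N L x e m : ℤ) - ((x / b ^ (2 * N) : ℕ) : ℤ) := by
  have h1 := VV_mod hb h hx m
  have h2 := VE_add b N L x e m
  have h3 : (VE b N L x e m : ℤ) - ((x / b ^ (2 * N) : ℕ) : ℤ) =
      ((VV b N L x m : ℤ) - ((x / b ^ (2 * N) : ℕ) : ℤ)) + ((e : ℤ) - 1) * (b : ℤ) ^ N := by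
    have h4 : (VE b N L x e m : ℤ) + (b : ℤ) ^ N = (VV b N L x m : ℤ) + (e : ℤ) * (b : ℤ) ^ N := by
      exact_mod_cast h2
    linarith
  rw [h3]
  exact dvd_add h1 (Dvd.dvd.mul_left (dvd_pow_self _ (by omega)) _)

lemma VE_par {b N L x e : ℕ} (ho : Odd b) (m : Fin L → Fin b × Fin 1) :
    (2 : ℤ) ∣ (VE b N L x e m : ℤ) - (e : ℤ) := by
  rw [VE_pal, pal_eq]
  have h1 : ae b N L x e m 0 = e := by simp [ae]
  rw [h1]
  have h2 : Even (∑ c ∈ range N, ae b N L x e m (c + 1) * (b ^ (N + c + 1) + b ^ (N - 1 - c))) := by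
    apply Finset.even_sum
    intro c _
    exact Even.mul_left (ho.pow.add_odd ho.pow) _
  obtain ⟨s, hs⟩ := h2
  rw [hs]
  obtain ⟨t, ht⟩ := ho.pow (n := N)
  rw [ht]
  push_cast
  exact ⟨(e : ℤ) * t + s, by ring⟩

/-- the prime factors of the value -/
lemma member' {b N L x e κ M J : ℕ} {G : ℤ[X]} (hb : 2 ≤ b) (hN : L + 1 ≤ N)
    (h2 : x < b ^ (2 * N + 1)) (h3 : IsCoprime (G.eval ((x / b ^ (2 * N) : ℕ) : ℤ)) (b : ℤ))
    (hodd : Even b ∨ Odd (G.eval (e : ℤ)))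
    (hM : ∀ p : ℕ, p.Prime → p ≤ 2 * κ → ¬ p ∣ 2 * b → p ∣ M) {n1 : ℕ}
    (hn1 : ∀ p : ℕ, p.Prime → p ≤ 2 * κ → ¬ p ∣ 2 * b → ¬ QG b G p n1)
    (m : Fin L → Fin b × Fin 1) (hm1 : VE b N L x e m % M = n1 % M)
    (hm2 : ∀ l ∈ Pr κ J, ¬ l ∣ b → ¬ QG b G l (VE b N L x e m)) :
    ∀ p : ℕ, p.Prime → (p : ℤ) ∣ G.eval (VE b N L x e m : ℤ) → 2 ^ 2 ^ J ≤ p := by
  intro p hp hd
  have hpZ : Prime (p : ℤ) := Nat.prime_iff_prime_int.1 hp
  have hmod := VE_mod (e := e) hb hN h2 m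
  have hpb : ¬ p ∣ b := by
    intro hpb
    have hpbZ : (p : ℤ) ∣ (b : ℤ) := Int.natCast_dvd_natCast.2 hpb
    have h4 : (VE b N L x e m : ℤ) - ((x / b ^ (2 * N) : ℕ) : ℤ) ∣
        G.eval (VE b N L x e m : ℤ) - G.eval ((x / b ^ (2 * N) : ℕ) : ℤ) := Polynomial.sub_dvd_eval_sub _ _ _
    have h5 := (hpbZ.trans hmod).trans h4
    have h6 := (dvd_sub_right hd).1 h5
    have h7 := h3.isUnit_of_dvd' h6 hpbZ
    exact hpZ.not_isUnit h7
  have hp2 : p ≠ 2 := by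
    rintro rfl
    have hob : Odd b := by
      rw [← Nat.not_even_iff_odd]
      exact fun h => hpb h.two_dvd
    have hoe : Odd (G.eval (e : ℤ)) := hodd.resolve_left (Nat.not_even_iff_odd.2 hob)
    have h4 : (VE b N L x e m : ℤ) - (e : ℤ) ∣
        G.eval (VE b N L x e m : ℤ) - G.eval (e : ℤ) := Polynomial.sub_dvd_eval_sub _ _ _
    have h5 : (2 : ℤ) ∣ G.eval (VE b N L x e m : ℤ) - G.eval (e : ℤ) := (VE_par hob m).trans h4
    have h6 : (2 : ℤ) ∣ G.eval (e : ℤ) := (dvd_sub_right (by exact_mod_cast hd)).1 h5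
    exact (Int.not_even_iff_odd.2 hoe) (even_iff_two_dvd.2 h6)
  have hp2b : ¬ p ∣ 2 * b := by
    intro h
    rcases (Nat.Prime.dvd_mul hp).1 h with h | h
    · exact hp2 ((Nat.prime_dvd_prime_iff_eq hp Nat.prime_two).1 h)
    · exact hpb h
  have hq : QG b G p (VE b N L x e m) := ⟨hp2b, hd⟩
  by_contra hcon
  push Not at hcon
  rcases Nat.lt_or_ge (2 * κ) p with h4 | h4
  · exact hm2 p (by
      unfold Pr
      rw [mem_filter, mem_range]
      exact ⟨hcon, hp, h4⟩) hpb hq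
  · have h5 := hM p hp h4 hp2b
    apply hn1 p hp h4 hp2b
    rw [QG_mod]
    rw [QG_mod, ← Nat.mod_mod_of_dvd _ h5, hm1, Nat.mod_mod_of_dvd _ h5] at hq
    exact hq

open Classical in
/-- **Tuples of polynomials at palindromes with prescribed leading digits.** -/
theorem core {b : ℕ} (hb : 2 ≤ b) {k : ℕ} (F : Fin k → ℤ[X]) (hirr : ∀ i, Irreducible (F i))
    (hdeg : ∀ i, 0 < (F i).natDegree) (hne : ∀ i j, i ≠ j → ¬ Associated (F i) (F j))
    (hloc : ∀ p : ℕ, p.Prime → ¬ p ∣ 2 * b → ∃ r : ℕ, ∀ i, ¬ (p : ℤ) ∣ (F i).eval (r : ℤ)) :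
    ∃ c C : ℝ, 0 < c ∧ 0 < C ∧ ∃ B L₀ : ℕ, 1 ≤ B ∧ ∀ L N x : ℕ, L₀ ≤ L → L < N →
    b ^ (2 * N) ≤ x → x < b ^ (2 * N + 1) →
    (((Wd b N L x).filter (fun n : ℕ => ∀ i, Rough B (b ^ L) ((F i).eval (n : ℤ)))).card : ℝ) ≤
      C * (b : ℝ) ^ L / (L : ℝ) ^ k ∧
    (∀ e : ℕ, e < b → (∀ i, IsCoprime ((F i).eval ((x / b ^ (2 * N) : ℕ) : ℤ)) (b : ℤ)) →
      (Even b ∨ ∀ i, Odd ((F i).eval (e : ℤ))) →
      c * (b : ℝ) ^ L / (L : ℝ) ^ k ≤ (((Wd b N L x).filter (fun n : ℕ => n / b ^ N % b = e ∧ ∀ i,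
        (F i).eval (n : ℤ) ≠ 0 ∧ Rough B (b ^ L) ((F i).eval (n : ℤ)) ∧
        ((F i).eval (n : ℤ)).natAbs.primeFactorsList.length * L ≤ B * N)).card : ℝ)) := by
  classical
  obtain ⟨κ, hκE⟩ : ∃ κ, κ = (GF F).natDegree + 1 := ⟨_, rfl⟩
  have hκ : 1 ≤ κ := by omega
  have hκ4 : κ ≤ 2 ^ κ := Nat.lt_two_pow_self.le
  obtain ⟨c, hc, hsv⟩ := svG2 κ κ hκ hκ4
  have hlocG : ∀ p : ℕ, p.Prime → ¬ p ∣ 2 * b → ∃ r : ℕ, ¬ (p : ℤ) ∣ (GF F).eval (r : ℤ) := by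
    intro p hp hpb
    obtain ⟨r, hr⟩ := hloc p hp hpb
    refine ⟨r, fun h => ?_⟩
    obtain ⟨i, hi⟩ := (dvd_GF hp F _).1 h
    exact hr i hi
  have hper : Per (QG b (GF F)) κ := by rw [hκE]; exact QG_per b hlocG
  obtain ⟨c1, C1, hc1, hC1, hprod⟩ := prod_bounds F hirr hdeg hne b κ hκ (by omega) hper
  -- small primes
  obtain ⟨Dm, hDm⟩ : ∃ Dm : Finset ℕ, Dm = (Icc 1 (2 * κ)).filter (fun p => p.Prime ∧ ¬ p ∣ 2 * b) := ⟨_, rfl⟩
  have hDmp : ∀ p ∈ Dm, p.Prime := fun p hp => by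
    rw [hDm, mem_filter] at hp; exact hp.2.1
  obtain ⟨M, hM⟩ : ∃ M : ℕ, M = ∏ p ∈ Dm, p := ⟨_, rfl⟩
  have hM0 : 0 < M := by
    rw [hM]
    exact prod_pos fun p hp => (hDmp p hp).pos
  have hMc : M.Coprime (2 * b) := by
    rw [hM]
    refine Nat.Coprime.prod_left fun p hp => (Nat.Prime.coprime_iff_not_dvd (hDmp p hp)).2 fun hd => ?_
    rw [hDm, mem_filter, mem_Icc] at hp
    exact hp.2.2 hd
  have hMp : ∀ p : ℕ, p.Prime → p ∣ M → p ≤ 2 * κ := by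
    intro p hp hd
    rw [hM] at hd
    obtain ⟨q, hq, hpq⟩ := (Nat.Prime.prime hp).exists_mem_finset_dvd hd
    have h4 := (Nat.prime_dvd_prime_iff_eq hp (hDmp q hq)).1 hpq
    rw [hDm, mem_filter, mem_Icc] at hq
    omega
  have hMd : ∀ p : ℕ, p.Prime → p ≤ 2 * κ → ¬ p ∣ 2 * b → p ∣ M := by
    intro p hp hp4 hpb
    rw [hM]
    exact dvd_prod_of_mem (fun p => p) (by
      rw [hDm, mem_filter, mem_Icc]
      exact ⟨⟨hp.one_le, hp4⟩, hp, hpb⟩)
  obtain ⟨r, hr⟩ := exists_class (QG b (GF F)) hper.per Dm hDmp (by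
    intro p hp
    have hpp := hDmp p hp
    rw [hDm, mem_filter] at hp
    obtain ⟨r0, hr0⟩ := hlocG p hpp hp.2.2
    have h6 : r0 % p ∉ (range p).filter (fun n : ℕ => QG b (GF F) p n) := by
      intro hmem
      rw [mem_filter] at hmem
      exact hr0 ((ev_mod (GF F) p r0).2 hmem.2.2)
    have h8 : (range p).filter (fun n : ℕ => QG b (GF F) p n) ⊂ range p := by
      refine ⟨filter_subset _ _, fun hsub => h6 (hsub (mem_range.2 (Nat.mod_lt _ hpp.pos)))⟩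
    have h9 := card_lt_card h8
    rw [card_range] at h9
    refine lt_of_le_of_lt (le_of_eq ?_) h9
    unfold nu
    congr)
  -- the size of the values
  have hAi : ∀ i, ∃ A : ℕ, 1 ≤ A ∧ ∀ N n : ℕ, 1 ≤ N → n < b ^ (2 * N + 1) →
      ((F i).eval (n : ℤ)).natAbs < b ^ (A * N) := fun i => eval_lt hb (F i)
  choose Ai hAi1 hAi2 using hAi
  obtain ⟨A, hA⟩ : ∃ A : ℕ, A = ∑ i, Ai i := ⟨_, rfl⟩
  have hAA : ∀ i, Ai i ≤ A := fun i => by
    rw [hA]
    exact single_le_sum (f := fun i => Ai i) (fun _ _ => Nat.zero_le _) (mem_univ i)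
  have hbR : (2 : ℝ) ≤ b := by exact_mod_cast hb
  have hb0 : (0 : ℝ) < b := by linarith
  have hMR : (0 : ℝ) < M := by exact_mod_cast hM0
  obtain ⟨B0, hB0⟩ : ∃ B0 : ℕ, B0 = 64 * c + 1 := ⟨_, rfl⟩
  obtain ⟨B, hB⟩ : ∃ B : ℕ, B = B0 * (A + 1) := ⟨_, rfl⟩
  have hBB : B0 ≤ B := by rw [hB]; nlinarith
  obtain ⟨c0, hc0⟩ : ∃ c0 : ℝ, c0 = c1 / (4 * M * (b : ℝ) ^ k) := ⟨_, rfl⟩
  have hc00 : 0 < c0 := by rw [hc0]; positivity
  obtain ⟨C0, hC0⟩ : ∃ C0 : ℝ, C0 = 2 * C1 * (64 * B) ^ k + 1 := ⟨_, rfl⟩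
  have hC00 : 0 < C0 := by rw [hC0]; positivity
  have e1 := er_finalK κ hb (k + 3)
  have e2 : ∀ᶠ L : ℕ in atTop, 64 * (16 * c * (M + 1)) ≤ L := eventually_ge_atTop _
  have e3 : ∀ᶠ L : ℕ in atTop, 128 * (16 * B) ≤ L := eventually_ge_atTop _
  have e4 : ∀ᶠ L : ℕ in atTop, b / c0 ≤ (L : ℝ) := tendsto_natCast_atTop_atTop.eventually_ge_atTop _
  obtain ⟨L0, hL0⟩ := eventually_atTop.1 (e1.and (e2.and (e3.and e4)))
  refine ⟨c0, b * C0, hc00, by positivity, B, L0, by omega, fun L N x hL hN h1 h2 => ?_⟩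
  obtain ⟨f1, f2, f3, f4⟩ := hL0 L hL
  have hL1 : 1 ≤ L := by omega
  have hL1R : (1 : ℝ) ≤ L := by exact_mod_cast hL1
  have hLpos : (0 : ℝ) < L := by linarith
  obtain ⟨Y, hY⟩ : ∃ Y : ℕ, Y = ⌊(b : ℝ) ^ ((49 / 100 : ℝ) * L)⌋₊ := ⟨_, rfl⟩
  rw [← hY] at f1
  have hYb : b ^ (L / 4) ≤ Y := by
    rw [hY]
    apply Nat.le_floor
    push_cast
    rw [← Real.rpow_natCast]
    apply Real.rpow_le_rpow_of_exponent_le (by linarith)
    have : ((L / 4 : ℕ) : ℝ) ≤ (L : ℝ) / 4 := Nat.cast_div_le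
    linarith
  obtain ⟨Er, hEr⟩ : ∃ Er : ℝ, Er = ∑ q ∈ (Icc 1 Y).filter (fun q => q.Coprime (2 * b)),
        (q.divisors.card : ℝ) ^ κ * er b L q := ⟨_, rfl⟩
  have hEr0 : 0 ≤ Er := by
    rw [hEr]
    exact sum_nonneg fun q _ => mul_nonneg (by positivity) (er_nonneg _ _ _)
  rw [← hEr] at f1
  constructor
  · -- the upper bound
    obtain ⟨J, hJ1, hJ2, hJ3, hJ4, hJ5⟩ := chooseJ (b := b) (E := B) (M := 1) (K := L) hb (by omega) (by omega)
    have hJpos : 1 ≤ J := by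
      by_contra hcon
      have h0 : J = 0 := by omega
      rw [h0] at hJ2
      norm_num at hJ2
    have hYle : 1 * (2 ^ 2 ^ J) ^ c ≤ Y := by
      refine le_trans ?_ (hJ1.trans hYb)
      exact Nat.mul_le_mul_left _ (Nat.pow_le_pow_right (by positivity) (by omega))
    have h2J : (L : ℝ) ≤ 64 * B * 2 ^ J := by
      have h3 : 2 ^ L ≤ 2 ^ (64 * B * 2 ^ J) := by
        calc 2 ^ L ≤ b ^ L := Nat.pow_le_pow_left hb _
          _ ≤ (2 ^ 2 ^ J) ^ (64 * B) := hJ3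
          _ = _ := by rw [← pow_mul]; congr 1; ring
      exact_mod_cast (Nat.pow_le_pow_iff_right (by norm_num : 1 < 2)).1 h3
    have h2J0 : (0 : ℝ) < 2 ^ J := by positivity
    have hinv : 1 / (2 : ℝ) ^ J ≤ 64 * B / L := by
      rw [div_le_div_iff₀ h2J0 hLpos]
      linarith
    obtain ⟨P, hP⟩ : ∃ P : ℝ, P = ∏ l ∈ (Pr κ J).filter (fun l => ¬ l ∣ b),
      (1 - (nu (QG b (GF F)) l : ℝ) / l) := ⟨_, rfl⟩
    have hPup : P ≤ C1 * ((64 * B) ^ k / (L : ℝ) ^ k) := by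
      rw [hP]
      refine (hprod J hJpos).2.trans ?_
      rw [div_eq_mul_one_div, ← div_pow]
      apply mul_le_mul_of_nonneg_left _ hC1.le
      rw [← one_div_pow]
      exact pow_le_pow_left₀ (by positivity) hinv k
    have hone : ∀ e : ℕ, ((((univ : Finset (Fin L → Fin b × Fin 1)).image (VE b N L x e)).filter
        (fun n => n % 1 = 0 % 1 ∧ ∀ l ∈ Pr κ J, ¬ l ∣ b → ¬ QG b (GF F) l n)).card : ℝ) ≤
        C0 * ((b : ℝ) ^ L / (L : ℝ) ^ k) := by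
      intro e
      have h := (hsv b ((univ : Finset (Fin L → Fin b × Fin 1)).image (VE b N L x e)) ((b : ℝ) ^ L) (er b L)
        (by positivity) (er_nonneg b L) (fun q h hq => VE_class e hb hN q h hq) 1 one_pos
        (Nat.coprime_one_left _) (fun p hp hd => absurd (Nat.dvd_one.1 hd) hp.one_lt.ne')
        (QG b (GF F)) hper 0 J Y hYle).2
      rw [← hP, Nat.cast_one, div_one, ← hEr] at h
      refine (le_of_eq ?_).trans (h.trans ?_)
      · congr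
      have h5 : (b : ℝ) ^ L / (L : ℝ) ^ (k + 3) ≤ (b : ℝ) ^ L / (L : ℝ) ^ k := by
        apply div_le_div_of_nonneg_left (by positivity) (by positivity)
        exact pow_le_pow_right₀ hL1R (by omega)
      have h6 : 2 * (b : ℝ) ^ L * P ≤ 2 * (b : ℝ) ^ L * (C1 * ((64 * B) ^ k / (L : ℝ) ^ k)) :=
        mul_le_mul_of_nonneg_left hPup (by positivity)
      have h7 : C0 * ((b : ℝ) ^ L / (L : ℝ) ^ k) =
          2 * (b : ℝ) ^ L * (C1 * ((64 * B) ^ k / (L : ℝ) ^ k)) + (b : ℝ) ^ L / (L : ℝ) ^ k := by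
        rw [hC0]
        ring
      rw [h7]
      linarith
    have hsub : (Wd b N L x).filter (fun n : ℕ => ∀ i, Rough B (b ^ L) ((F i).eval (n : ℤ))) ⊆
        (range b).biUnion (fun e => ((univ : Finset (Fin L → Fin b × Fin 1)).image (VE b N L x e)).filter
        (fun n => n % 1 = 0 % 1 ∧ ∀ l ∈ Pr κ J, ¬ l ∣ b → ¬ QG b (GF F) l n)) := by
      intro n hn
      rw [mem_filter, Wd, mem_filter, mem_Ico] at hn
      obtain ⟨⟨⟨g1, g2⟩, g3, g4⟩, g5⟩ := hn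
      have g8 := VE_surj hb g1 g2 g3 g4
      rw [mem_biUnion]
      refine ⟨n / b ^ N % b, mem_range.2 (Nat.mod_lt _ (by omega)), ?_⟩
      rw [mem_filter, mem_image]
      refine ⟨⟨_, mem_univ _, g8.symm⟩, by omega, ?_⟩
      intro l hl _ hd
      have hl' := hl
      unfold Pr at hl'
      rw [mem_filter, mem_range] at hl'
      obtain ⟨i, hi⟩ := (dvd_GF hl'.2.1 F _).1 hd.2
      have h2 := g5 i l hl'.2.1 hi
      have h3 : l ^ B ≤ (2 ^ 2 ^ J) ^ B := Nat.pow_le_pow_left hl'.1.le _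
      have h4 : (2 ^ 2 ^ J) ^ B ≤ (2 ^ 2 ^ J) ^ (4 * B) := Nat.pow_le_pow_right (by positivity) (by omega)
      have h5 : b ^ (L / 4) ≤ b ^ L := Nat.pow_le_pow_right (by omega) (Nat.div_le_self _ _)
      omega
    calc (((Wd b N L x).filter (fun n : ℕ => ∀ i, Rough B (b ^ L) ((F i).eval (n : ℤ)))).card : ℝ)
        ≤ ∑ e ∈ range b, ((((univ : Finset (Fin L → Fin b × Fin 1)).image (VE b N L x e)).filter
        (fun n => n % 1 = 0 % 1 ∧ ∀ l ∈ Pr κ J, ¬ l ∣ b → ¬ QG b (GF F) l n)).card : ℝ) := by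
          exact_mod_cast (card_le_card hsub).trans card_biUnion_le
      _ ≤ ∑ _e ∈ range b, C0 * ((b : ℝ) ^ L / (L : ℝ) ^ k) := sum_le_sum fun e _ => hone e
      _ = b * C0 * (b : ℝ) ^ L / (L : ℝ) ^ k := by
          rw [sum_const, card_range, nsmul_eq_mul]
          ring
  · -- the lower bound
    intro e he hcop hodd
    have hcopG : IsCoprime ((GF F).eval ((x / b ^ (2 * N) : ℕ) : ℤ)) (b : ℤ) := by
      rw [eval_GF]
      exact IsCoprime.prod_left fun i _ => hcop i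
    have hoddG : Even b ∨ Odd ((GF F).eval (e : ℤ)) := by
      rcases hodd with h | h
      · exact Or.inl h
      · right
        rw [eval_GF]
        exact Finset.prod_induction _ Odd (fun a b ha hb => ha.mul hb) odd_one (fun i _ => h i)
    obtain ⟨J, hJ1, hJ2, hJ3, -, hJ5⟩ := chooseJ (b := b) (E := c) (M := M) (K := L) hb hc (by omega)
    have hJpos : 1 ≤ J := by
      by_contra hcon
      have h0 : J = 0 := by omega
      rw [h0] at hJ2
      norm_num at hJ2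
    have hYle : M * (2 ^ 2 ^ J) ^ c ≤ Y := hJ1.trans hYb
    have hmain := (hsv b ((univ : Finset (Fin L → Fin b × Fin 1)).image (VE b N L x e)) ((b : ℝ) ^ L) (er b L)
        (by positivity) (er_nonneg b L) (fun q h hq => VE_class e hb hN q h hq) M hM0 hMc hMp
        (QG b (GF F)) hper r J Y hYle).1
    obtain ⟨P, hP⟩ : ∃ P : ℝ, P = ∏ l ∈ (Pr κ J).filter (fun l => ¬ l ∣ b),
      (1 - (nu (QG b (GF F)) l : ℝ) / l) := ⟨_, rfl⟩
    rw [← hP, ← hEr] at hmain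
    have h2J : (2 : ℝ) ^ J ≤ b * L := by exact_mod_cast hJ5
    have h2J0 : (0 : ℝ) < 2 ^ J := by positivity
    have hPlow : c1 / ((b : ℝ) * L) ^ k ≤ P := by
      rw [hP]
      refine le_trans ?_ (hprod J hJpos).1
      apply div_le_div_of_nonneg_left hc1.le (by positivity)
      exact pow_le_pow_left₀ h2J0.le h2J k
    have hcount : c0 * (b : ℝ) ^ L / (L : ℝ) ^ k ≤ (b : ℝ) ^ L / M / 2 * P - 2 ^ J * Er := by
      have g1 : 2 ^ J * Er ≤ (b * L) * ((b : ℝ) ^ L / (L : ℝ) ^ (k + 3)) :=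
        mul_le_mul h2J f1 hEr0 (by positivity)
      have g2 : (b * L) * ((b : ℝ) ^ L / (L : ℝ) ^ (k + 3)) = b / (L : ℝ) ^ 2 * ((b : ℝ) ^ L / (L : ℝ) ^ k) := by
        rw [pow_add]
        field_simp
      have g4 : (b : ℝ) ^ L / M / 2 * (c1 / ((b : ℝ) * L) ^ k) = 2 * c0 * ((b : ℝ) ^ L / (L : ℝ) ^ k) := by
        rw [hc0, mul_pow]
        field_simp
        ring
      have g5 : (b : ℝ) ^ L / M / 2 * (c1 / ((b : ℝ) * L) ^ k) ≤ (b : ℝ) ^ L / M / 2 * P :=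
        mul_le_mul_of_nonneg_left hPlow (by positivity)
      have g6 : (b : ℝ) / (L : ℝ) ^ 2 ≤ c0 := by
        rw [div_le_iff₀ hc00] at f4
        rw [div_le_iff₀ (by positivity)]
        have g7 : (L : ℝ) ≤ (L : ℝ) ^ 2 := by nlinarith
        have g8 : c0 * (L : ℝ) ≤ c0 * (L : ℝ) ^ 2 := mul_le_mul_of_nonneg_left g7 hc00.le
        linarith
      have g8 : (b : ℝ) / (L : ℝ) ^ 2 * ((b : ℝ) ^ L / (L : ℝ) ^ k) ≤ c0 * ((b : ℝ) ^ L / (L : ℝ) ^ k) :=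
        mul_le_mul_of_nonneg_right g6 (by positivity)
      rw [g2] at g1
      rw [g4] at g5
      rw [mul_div_assoc]
      linarith
    refine (hcount.trans hmain).trans ?_
    rw [Nat.cast_le]
    apply card_le_card
    intro n hn
    rw [mem_filter, mem_image] at hn
    obtain ⟨⟨m, _, rfl⟩, g1, g2⟩ := hn
    have hmem : ∀ p : ℕ, p.Prime → (p : ℤ) ∣ (GF F).eval (VE b N L x e m : ℤ) → 2 ^ 2 ^ J ≤ p :=
      member' (J := J) hb hN h2 hcopG hoddG hMd (n1 := r) (fun p hp hp4 hpb => hr p (by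
        rw [hDm, mem_filter, mem_Icc]
        exact ⟨⟨hp.one_le, hp4⟩, hp, hpb⟩)) m g1 (fun l hl hlb => g2 l hl hlb)
    have hp0 : ∀ i, ∀ p : ℕ, p.Prime → (p : ℤ) ∣ (F i).eval (VE b N L x e m : ℤ) → b ^ L < p ^ B0 := by
      intro i p hpp hd
      have hz := hmem p hpp ((dvd_GF hpp F _).2 ⟨i, hd⟩)
      calc b ^ L ≤ (2 ^ 2 ^ J) ^ (64 * c) := hJ3
        _ ≤ p ^ (64 * c) := Nat.pow_le_pow_left hz _
        _ < p ^ B0 := Nat.pow_lt_pow_right hpp.one_lt (by omega)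
    have hnz : ∀ i, (F i).eval (VE b N L x e m : ℤ) ≠ 0 := by
      intro i h0
      have h5 := hmem 2 Nat.prime_two ((dvd_GF Nat.prime_two F _).2 ⟨i, by rw [h0]; exact dvd_zero _⟩)
      omega
    obtain ⟨hW, hmid⟩ := VE_mem hb hN h2 h1 he m
    rw [mem_filter]
    refine ⟨hW, hmid, fun i => ⟨hnz i, fun p hpp hd => (hp0 i p hpp hd).trans_le
      (Nat.pow_le_pow_right hpp.pos hBB), ?_⟩⟩
    have h5 := few_of (T := Ai i * N) hb (by omega : B0 ≠ 0) (Int.natAbs_ne_zero.2 (hnz i))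
      (hAi2 i N _ (by omega) (VE_lt hb he m)) (fun p hp => by
        have hpp := Nat.prime_of_mem_primeFactorsList hp
        have hd := Nat.dvd_of_mem_primeFactorsList hp
        exact hp0 i p hpp (Int.natCast_dvd.2 hd))
    refine h5.trans ?_
    rw [hB]
    have h6 : B0 * (Ai i * N) ≤ B0 * ((A + 1) * N) :=
      Nat.mul_le_mul_left _ (Nat.mul_le_mul_right _ ((hAA i).trans (Nat.le_succ _)))
    linarith

end Pool.Agent.V7H56.PB
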