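import Pool.Agent.R471.PP.Cls2
import Pool.Agent.H474R2.GE.FA

/-! # The sieve product for a product of distinct irreducible polynomials -/

set_option autoImplicit false

namespace Pool.Agent.V7H56.PB

open Finset Polynomial Filter Topology
open Pool.Agent.R471.PP (nu Per)
open Pool.Agent.H410R2.ED (Pr)
open Pool.Agent.H474R2.PG (rho Sg PR)
open Pool.Agent.H474R2.GE (mertens_rho)

/-- the sieve conditions -/
def QG (b : ℕ) (G : ℤ[X]) (l n : ℕ) : Prop := ¬ l ∣ 2 * b ∧ (l : ℤ) ∣ G.eval (n : ℤ)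

/-- the product of the polynomials -/
noncomputable def GF {k : ℕ} (F : Fin k → ℤ[X]) : ℤ[X] := ∏ i, F i

lemma eval_GF {k : ℕ} (F : Fin k → ℤ[X]) (n : ℤ) : (GF F).eval n = ∏ i, (F i).eval n := by
  unfold GF
  rw [eval_prod]

lemma dvd_GF {k : ℕ} {p : ℕ} (hp : p.Prime) (F : Fin k → ℤ[X]) (n : ℤ) :
    (p : ℤ) ∣ (GF F).eval n ↔ ∃ i, (p : ℤ) ∣ (F i).eval n := by
  rw [eval_GF, Prime.dvd_finsetProd_iff (Nat.prime_iff_prime_int.1 hp)]
  simp

lemma ev_mod (G : ℤ[X]) (p n : ℕ) :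
    ((p : ℤ) ∣ G.eval (n : ℤ)) ↔ ((p : ℤ) ∣ G.eval ((n % p : ℕ) : ℤ)) := by
  have h1 : (p : ℤ) ∣ G.eval (n : ℤ) - G.eval ((n % p : ℕ) : ℤ) := by
    have h2 : ((n : ℤ) - ((n % p : ℕ) : ℤ)) ∣ G.eval (n : ℤ) - G.eval ((n % p : ℕ) : ℤ) :=
      Polynomial.sub_dvd_eval_sub _ _ _
    refine dvd_trans ?_ h2
    push_cast
    exact Int.dvd_self_sub_emod
  exact ⟨fun h => (dvd_sub_right h).1 h1, fun h => (dvd_sub_left h).1 h1⟩

lemma QG_mod (b : ℕ) (G : ℤ[X]) (p n : ℕ) : QG b G p n ↔ QG b G p (n % p) := by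
  unfold QG
  rw [ev_mod]

lemma nu_QG {b p : ℕ} (G : ℤ[X]) (h : ¬ p ∣ 2 * b) : nu (QG b G) p = rho G p := by
  classical
  unfold nu rho
  refine congrArg Finset.card ?_
  ext r
  rw [mem_filter, mem_filter]
  unfold QG
  tauto

lemma QG_per (b : ℕ) {G : ℤ[X]}
    (hloc : ∀ p : ℕ, p.Prime → ¬ p ∣ 2 * b → ∃ r : ℕ, ¬ (p : ℤ) ∣ G.eval (r : ℤ)) :
    Per (QG b G) (G.natDegree + 1) := by
  classical
  refine ⟨QG_mod b G, fun p hp => ?_⟩
  have h1 : nu (QG b G) p = ((range p).filter (fun r => QG b G p r)).card := by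
    unfold nu
    congr
  rw [h1]
  by_cases hpb : p ∣ 2 * b
  · rw [card_eq_zero.2]
    · omega
    · rw [filter_eq_empty_iff]
      intro r _ h
      exact h.1 hpb
  · obtain ⟨r0, hr0⟩ := hloc p hp hpb
    have : Fact p.Prime := ⟨hp⟩
    obtain ⟨H, hH⟩ : ∃ H : (ZMod p)[X], H = G.map (Int.castRingHom (ZMod p)) := ⟨_, rfl⟩
    have hev : ∀ r : ℕ, H.eval (r : ZMod p) = ((G.eval (r : ℤ) : ℤ) : ZMod p) := by
      intro r
      have h2 : (r : ZMod p) = (Int.castRingHom (ZMod p)) (r : ℤ) := by simp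
      rw [hH, h2, Polynomial.eval_map_apply]
      simp
    have hH0 : H ≠ 0 := by
      intro h0
      apply hr0
      rw [← ZMod.intCast_zmod_eq_zero_iff_dvd, ← hev, h0, eval_zero]
    calc ((range p).filter (fun r => QG b G p r)).card ≤ H.roots.toFinset.card := by
          apply card_le_card_of_injOn (fun r : ℕ => (r : ZMod p))
          · intro r hr
            rw [mem_coe, mem_filter] at hr
            rw [mem_coe, Multiset.mem_toFinset, mem_roots hH0, IsRoot.def, hev,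
              ZMod.intCast_zmod_eq_zero_iff_dvd]
            exact hr.2.2
          · intro r hr r' hr' h
            rw [mem_coe, mem_filter, mem_range] at hr hr'
            have h3 := (ZMod.natCast_eq_natCast_iff r r' p).1 h
            exact Nat.ModEq.eq_of_lt_of_lt h3 hr.1 hr'.1
      _ ≤ Multiset.card H.roots := Multiset.toFinset_card_le _
      _ ≤ H.natDegree := card_roots' _
      _ ≤ G.natDegree := by rw [hH]; exact natDegree_map_le
      _ ≤ G.natDegree + 1 := Nat.le_succ _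

/-- Bezout with denominators -/
theorem bezout (P D : ℤ[X]) (h : IsCoprime (P.map (Int.castRingHom ℚ)) (D.map (Int.castRingHom ℚ))) :
    ∃ (U V : ℤ[X]) (R : ℤ), R ≠ 0 ∧ U * P + V * D = C R := by
  obtain ⟨u, v, huv⟩ := h
  obtain ⟨b, hb, hbu⟩ := IsLocalization.integerNormalization_spec (nonZeroDivisors ℤ) u
  obtain ⟨c, hc, hcv⟩ := IsLocalization.integerNormalization_spec (nonZeroDivisors ℤ) v
  set U := IsLocalization.integerNormalization (nonZeroDivisors ℤ) u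
  set V := IsLocalization.integerNormalization (nonZeroDivisors ℤ) v
  have hb0 : b ≠ 0 := nonZeroDivisors.ne_zero hb
  have hc0 : c ≠ 0 := nonZeroDivisors.ne_zero hc
  refine ⟨C c * U, C b * V, b * c, mul_ne_zero hb0 hc0, ?_⟩
  apply Polynomial.map_injective (Int.castRingHom ℚ) Int.cast_injective
  have e1 : U.map (Int.castRingHom ℚ) = C (b : ℚ) * u := by
    have : U.map (Int.castRingHom ℚ) = b • u := hbu
    rw [this, zsmul_eq_mul]
    simp
  have e2 : V.map (Int.castRingHom ℚ) = C (c : ℚ) * v := by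
    have : V.map (Int.castRingHom ℚ) = c • v := hcv
    rw [this, zsmul_eq_mul]
    simp
  rw [Polynomial.map_add, Polynomial.map_mul, Polynomial.map_mul, Polynomial.map_mul,
    Polynomial.map_mul, Polynomial.map_C, Polynomial.map_C, Polynomial.map_C, e1, e2, eq_intCast,
    eq_intCast, eq_intCast]
  have : C (c : ℚ) * (C (b : ℚ) * u) * P.map (Int.castRingHom ℚ) +
      C (b : ℚ) * (C (c : ℚ) * v) * D.map (Int.castRingHom ℚ) =
      C (b : ℚ) * C (c : ℚ) * (u * P.map (Int.castRingHom ℚ) + v * D.map (Int.castRingHom ℚ)) := by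
    ring
  rw [this, huv, mul_one, ← C_mul]
  push_cast
  rfl

/-- two irreducible polynomials have no common zeros modulo large primes -/
lemma no_common {P D : ℤ[X]} (hP : Irreducible P) (hD : Irreducible D) (hd : 0 < P.natDegree)
    (hPD : ¬ Associated P D) : ∃ R : ℕ, ∀ p : ℕ, R < p → ∀ a : ℤ,
      (p : ℤ) ∣ P.eval a → ¬ (p : ℤ) ∣ D.eval a := by
  have hprim : P.IsPrimitive := hP.isPrimitive hd.ne'
  have hirr : Irreducible (P.map (Int.castRingHom ℚ)) :=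
    (IsPrimitive.Int.irreducible_iff_irreducible_map_cast hprim).1 hP
  have hcop : IsCoprime (P.map (Int.castRingHom ℚ)) (D.map (Int.castRingHom ℚ)) := by
    rw [Irreducible.coprime_iff_not_dvd hirr]
    intro h
    exact hPD (hP.associated_of_dvd hD ((IsPrimitive.Int.dvd_iff_map_cast_dvd_map_cast P D hprim).2 h))
  obtain ⟨U, V, R, hR, hUV⟩ := bezout P D hcop
  refine ⟨R.natAbs, fun p hp a h1 h2 => ?_⟩
  have h3 : (p : ℤ) ∣ R := by
    have h4 : (U * P + V * D).eval a = R := by rw [hUV, eval_C]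
    rw [← h4, eval_add, eval_mul, eval_mul]
    exact dvd_add (h1.mul_left _) (h2.mul_left _)
  have h5 : p ≤ R.natAbs := by
    have := Int.natAbs_le_of_dvd_ne_zero h3 hR
    simpa using this
  omega

lemma filter_GF {k : ℕ} (F : Fin k → ℤ[X]) {p : ℕ} (hp : p.Prime) :
    (range p).filter (fun a : ℕ => (p : ℤ) ∣ (GF F).eval (a : ℤ)) =
      (univ : Finset (Fin k)).biUnion (fun i => (range p).filter (fun a : ℕ => (p : ℤ) ∣ (F i).eval (a : ℤ))) := by
  ext a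
  rw [mem_filter, mem_biUnion, dvd_GF hp]
  constructor
  · rintro ⟨h1, i, h2⟩
    exact ⟨i, mem_univ _, mem_filter.2 ⟨h1, h2⟩⟩
  · rintro ⟨i, _, h⟩
    rw [mem_filter] at h
    exact ⟨h.1, i, h.2⟩

lemma rho_le_sum {k : ℕ} (F : Fin k → ℤ[X]) {p : ℕ} (hp : p.Prime) :
    rho (GF F) p ≤ ∑ i, rho (F i) p := by
  unfold rho
  rw [filter_GF F hp]
  exact card_biUnion_le

lemma sum_le_rho {k : ℕ} (F : Fin k → ℤ[X]) (hirr : ∀ i, Irreducible (F i))
    (hdeg : ∀ i, 0 < (F i).natDegree) (hne : ∀ i j, i ≠ j → ¬ Associated (F i) (F j)) :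
    ∃ P₀ : ℕ, ∀ p : ℕ, p.Prime → P₀ < p → ∑ i, rho (F i) p ≤ rho (GF F) p := by
  have h1 : ∀ i j, ∃ R : ℕ, i ≠ j → ∀ p : ℕ, R < p → ∀ a : ℤ,
      (p : ℤ) ∣ (F i).eval a → ¬ (p : ℤ) ∣ (F j).eval a := by
    intro i j
    by_cases hij : i = j
    · exact ⟨0, fun h => absurd hij h⟩
    · obtain ⟨R, hR⟩ := no_common (hirr i) (hirr j) (hdeg i) (hne i j hij)
      exact ⟨R, fun _ => hR⟩
  choose R hR using h1
  refine ⟨∑ i, ∑ j, R i j, fun p hp hpR => ?_⟩
  unfold rho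
  rw [filter_GF F hp, card_biUnion]
  intro i _ j _ hij
  rw [Function.onFun, Finset.disjoint_left]
  intro a ha hb
  rw [mem_filter] at ha hb
  refine hR i j hij p (lt_of_le_of_lt ?_ hpR) (a : ℤ) ha.2 hb.2
  calc R i j ≤ ∑ j, R i j := single_le_sum (f := fun j => R i j) (fun _ _ => Nat.zero_le _) (mem_univ j)
    _ ≤ _ := single_le_sum (f := fun i => ∑ j, R i j) (fun _ _ => Nat.zero_le _) (mem_univ i)

lemma rho_le_self (f : ℤ[X]) (p : ℕ) : rho f p ≤ p := by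
  unfold rho
  calc _ ≤ (range p).card := card_filter_le _ _
    _ = p := card_range p

/-- the sum over the sifting primes -/
noncomputable def SS (b : ℕ) (G : ℤ[X]) (κ J : ℕ) : ℝ :=
  ∑ l ∈ (Pr κ J).filter (fun l => ¬ l ∣ b), (nu (QG b G) l : ℝ) / l

lemma mem_pr {b κ J l : ℕ} (hκ : 1 ≤ κ) (h : l ∈ (Pr κ J).filter (fun l => ¬ l ∣ b)) :
    l.Prime ∧ 2 * κ < l ∧ l < 2 ^ 2 ^ J ∧ ¬ l ∣ 2 * b := by
  unfold Pr at h
  rw [mem_filter, mem_filter, mem_range] at h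
  obtain ⟨⟨h1, h2, h3⟩, h4⟩ := h
  refine ⟨h2, h3, h1, fun h5 => ?_⟩
  rcases (Nat.Prime.dvd_mul h2).1 h5 with h6 | h6
  · have := Nat.le_of_dvd (by norm_num) h6
    omega
  · exact h4 h6

theorem SS_bound {k : ℕ} (F : Fin k → ℤ[X]) (hirr : ∀ i, Irreducible (F i))
    (hdeg : ∀ i, 0 < (F i).natDegree) (hne : ∀ i j, i ≠ j → ¬ Associated (F i) (F j)) (b κ : ℕ)
    (hκ : 1 ≤ κ) (hb : 1 ≤ b) :
    ∃ C : ℝ, 0 ≤ C ∧ ∀ J : ℕ, 1 ≤ J → |SS b (GF F) κ J - k * Real.log (2 ^ J)| ≤ C := by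
  classical
  have h0 : ∀ i, ∃ C : ℝ, 0 ≤ C ∧ ∀ w : ℝ, 3 ≤ w → |Sg (rho (F i)) w - Real.log (Real.log w)| ≤ C :=
    fun i => mertens_rho (F i) (hirr i) (hdeg i)
  choose Cm hCm0 hCm using h0
  obtain ⟨P₀, hP₀⟩ := sum_le_rho F hirr hdeg hne
  obtain ⟨P₁, hP₁⟩ : ∃ P₁ : ℕ, P₁ = P₀ + 2 * κ + b := ⟨_, rfl⟩
  have hl2 : (0 : ℝ) < Real.log 2 := Real.log_pos (by norm_num)
  obtain ⟨E, hE⟩ : ∃ E : ℝ, E = k * |Real.log (Real.log 2)| := ⟨_, rfl⟩
  have hE0 : 0 ≤ E := by rw [hE]; positivity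
  have hC0 : 0 ≤ ∑ i, Cm i := sum_nonneg fun i _ => hCm0 i
  refine ⟨∑ i, Cm i + E + k * (P₁ + 1), by positivity, fun J hJ => ?_⟩
  obtain ⟨z, hz⟩ : ∃ z : ℝ, z = (2 : ℝ) ^ 2 ^ J := ⟨_, rfl⟩
  have h2J : 2 ≤ 2 ^ J := by
    calc 2 = 2 ^ 1 := by norm_num
      _ ≤ 2 ^ J := Nat.pow_le_pow_right (by norm_num) hJ
  have hz4 : (4 : ℝ) ≤ z := by
    rw [hz]
    calc (4 : ℝ) = 2 ^ 2 := by norm_num
      _ ≤ 2 ^ 2 ^ J := pow_le_pow_right₀ (by norm_num) h2J
  have hz3 : (3 : ℝ) ≤ z := by linarith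
  have hfl : ⌊z⌋₊ = 2 ^ 2 ^ J := by
    rw [hz]
    have : ((2 : ℝ) ^ 2 ^ J) = ((2 ^ 2 ^ J : ℕ) : ℝ) := by push_cast; rfl
    rw [this, Nat.floor_natCast]
  have hlog : Real.log (Real.log z) = Real.log (2 ^ J) + Real.log (Real.log 2) := by
    rw [hz, Real.log_pow, Real.log_mul (by positivity) hl2.ne']
    push_cast
    rfl
  have hmem : ∀ l ∈ (Pr κ J).filter (fun l => ¬ l ∣ b), l ∈ PR z := by
    intro l hl
    obtain ⟨h1, h2, h3, h4⟩ := mem_pr hκ hl
    unfold PR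
    rw [mem_filter, mem_Icc, hfl]
    exact ⟨⟨h1.one_le, h3.le⟩, h1⟩
  have hSS : SS b (GF F) κ J = ∑ l ∈ (Pr κ J).filter (fun l => ¬ l ∣ b), (rho (GF F) l : ℝ) / l := by
    unfold SS
    refine sum_congr rfl fun l hl => ?_
    rw [nu_QG _ (mem_pr hκ hl).2.2.2]
  have hmain : ∀ i, |Sg (rho (F i)) z - (Real.log (2 ^ J) + Real.log (Real.log 2))| ≤ Cm i := by
    intro i
    rw [← hlog]
    exact hCm i z hz3
  have hsum : |∑ i, Sg (rho (F i)) z - k * (Real.log (2 ^ J) + Real.log (Real.log 2))| ≤ ∑ i, Cm i := by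
    have e1 : (k : ℝ) * (Real.log (2 ^ J) + Real.log (Real.log 2)) =
        ∑ _i : Fin k, (Real.log (2 ^ J) + Real.log (Real.log 2)) := by
      rw [sum_const, card_univ, Fintype.card_fin, nsmul_eq_mul]
    rw [e1, ← sum_sub_distrib]
    exact (abs_sum_le_sum_abs _ _).trans (sum_le_sum fun i _ => hmain i)
  have hkE : |k * Real.log (Real.log 2)| ≤ E := by
    rw [hE, abs_mul, Nat.abs_cast]
  have hup : SS b (GF F) κ J ≤ ∑ i, Sg (rho (F i)) z := by
    rw [hSS]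
    calc ∑ l ∈ (Pr κ J).filter (fun l => ¬ l ∣ b), (rho (GF F) l : ℝ) / l
        ≤ ∑ l ∈ (Pr κ J).filter (fun l => ¬ l ∣ b), ∑ i, (rho (F i) l : ℝ) / l := by
          refine sum_le_sum fun l hl => ?_
          rw [← sum_div]
          apply div_le_div_of_nonneg_right _ (Nat.cast_nonneg _)
          exact_mod_cast rho_le_sum F (mem_pr hκ hl).1
      _ = ∑ i, ∑ l ∈ (Pr κ J).filter (fun l => ¬ l ∣ b), (rho (F i) l : ℝ) / l := sum_comm
      _ ≤ ∑ i, Sg (rho (F i)) z := by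
          refine sum_le_sum fun i _ => ?_
          unfold Sg
          apply sum_le_sum_of_subset_of_nonneg hmem
          intro l _ _
          positivity
  have hlow : ∑ i, Sg (rho (F i)) z ≤ SS b (GF F) κ J + k * (P₁ + 1) := by
    obtain ⟨T, hT⟩ : ∃ T, T = (PR z).filter (fun p => P₁ < p) := ⟨_, rfl⟩
    have hTm : ∀ p ∈ T, p ∈ (Pr κ J).filter (fun l => ¬ l ∣ b) ∧ P₀ < p := by
      intro p hp
      rw [hT, mem_filter, PR, mem_filter, mem_Icc, hfl] at hp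
      obtain ⟨⟨⟨h1, h2⟩, h3⟩, h4⟩ := hp
      refine ⟨?_, by omega⟩
      rw [mem_filter]
      unfold Pr
      rw [mem_filter, mem_range]
      refine ⟨⟨lt_of_le_of_ne h2 ?_, h3, by omega⟩, fun h5 => ?_⟩
      · intro h5
        rw [h5] at h3
        exact Nat.Prime.not_prime_pow h2J h3
      · have := Nat.le_of_dvd (by omega) h5
        omega
    have e1 : ∀ i, Sg (rho (F i)) z ≤ ∑ p ∈ T, (rho (F i) p : ℝ) / p + (P₁ + 1) := by
      intro i
      unfold Sg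
      rw [← sum_filter_add_sum_filter_not (PR z) (fun p => P₁ < p), ← hT]
      apply add_le_add le_rfl
      calc ∑ p ∈ (PR z).filter (fun p => ¬ P₁ < p), (rho (F i) p : ℝ) / p
          ≤ ∑ p ∈ (PR z).filter (fun p => ¬ P₁ < p), (1 : ℝ) := by
            refine sum_le_sum fun p hp => ?_
            rw [mem_filter, PR, mem_filter] at hp
            have h1 : (0 : ℝ) < p := by exact_mod_cast hp.1.2.pos
            rw [div_le_one h1]
            exact_mod_cast rho_le_self (F i) p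
        _ = (((PR z).filter (fun p => ¬ P₁ < p)).card : ℝ) := by rw [sum_const, nsmul_eq_mul, mul_one]
        _ ≤ ((range (P₁ + 1)).card : ℝ) := by
            rw [Nat.cast_le]
            apply card_le_card
            intro p hp
            rw [mem_filter] at hp
            rw [mem_range]
            omega
        _ = P₁ + 1 := by rw [card_range]; push_cast; ring
    calc ∑ i, Sg (rho (F i)) z ≤ ∑ i : Fin k, (∑ p ∈ T, (rho (F i) p : ℝ) / p + (P₁ + 1)) :=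
          sum_le_sum fun i _ => e1 i
      _ = ∑ p ∈ T, (∑ i, (rho (F i) p : ℝ)) / p + k * (P₁ + 1) := by
          rw [sum_add_distrib, sum_comm, sum_const, card_univ, Fintype.card_fin, nsmul_eq_mul]
          simp only [sum_div]
      _ ≤ SS b (GF F) κ J + k * (P₁ + 1) := by
          apply add_le_add _ le_rfl
          rw [hSS]
          calc ∑ p ∈ T, (∑ i, (rho (F i) p : ℝ)) / p ≤ ∑ p ∈ T, (rho (GF F) p : ℝ) / p := by
                refine sum_le_sum fun p hp => ?_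
                apply div_le_div_of_nonneg_right _ (Nat.cast_nonneg _)
                exact_mod_cast hP₀ p (mem_pr hκ (hTm p hp).1).1 (hTm p hp).2
            _ ≤ _ := by
                apply sum_le_sum_of_subset_of_nonneg (fun p hp => (hTm p hp).1)
                intro l _ _
                positivity
  rw [abs_le] at hsum hkE ⊢
  have hkP : (0 : ℝ) ≤ k * (P₁ + 1) := by positivity
  constructor
  · linarith [hsum.1, hkE.1, hkE.2]
  · linarith [hsum.2, hkE.1, hkE.2]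

lemma exp_low {x : ℝ} (h0 : 0 ≤ x) (h1 : x ≤ 1 / 2) : Real.exp (-(x + x ^ 2)) ≤ 1 - x := by
  have hy : 0 ≤ x + x ^ 2 := by positivity
  have h2 := Real.quadratic_le_exp_of_nonneg hy
  have h3 : 0 < 1 + (x + x ^ 2) + (x + x ^ 2) ^ 2 / 2 := by positivity
  rw [Real.exp_neg]
  calc (Real.exp (x + x ^ 2))⁻¹ ≤ (1 + (x + x ^ 2) + (x + x ^ 2) ^ 2 / 2)⁻¹ := inv_anti₀ h3 h2
    _ ≤ 1 - x := by
        rw [inv_le_iff_one_le_mul₀ h3]
        have h4 : (1 - x) * (1 + (x + x ^ 2) + (x + x ^ 2) ^ 2 / 2) =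
            1 + x ^ 2 * (1 - x - x ^ 2 - x ^ 3) / 2 := by ring
        rw [h4]
        have h5 : x ^ 2 ≤ 1 / 4 := by nlinarith
        have h6 : x ^ 3 ≤ 1 / 8 := by
          have : x ^ 3 = x ^ 2 * x := by ring
          rw [this]
          nlinarith [sq_nonneg x]
        have h7 : 0 ≤ 1 - x - x ^ 2 - x ^ 3 := by linarith
        have h8 : 0 ≤ x ^ 2 * (1 - x - x ^ 2 - x ^ 3) := mul_nonneg (sq_nonneg x) h7
        linarith

/-- **The product.** -/
theorem prod_bounds {k : ℕ} (F : Fin k → ℤ[X]) (hirr : ∀ i, Irreducible (F i))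
    (hdeg : ∀ i, 0 < (F i).natDegree) (hne : ∀ i j, i ≠ j → ¬ Associated (F i) (F j)) (b κ : ℕ)
    (hκ : 1 ≤ κ) (hb : 1 ≤ b) (hQ : Per (QG b (GF F)) κ) :
    ∃ c C : ℝ, 0 < c ∧ 0 < C ∧ ∀ J : ℕ, 1 ≤ J →
      c / ((2 : ℝ) ^ J) ^ k ≤ ∏ l ∈ (Pr κ J).filter (fun l => ¬ l ∣ b), (1 - (nu (QG b (GF F)) l : ℝ) / l) ∧
      ∏ l ∈ (Pr κ J).filter (fun l => ¬ l ∣ b), (1 - (nu (QG b (GF F)) l : ℝ) / l) ≤ C / ((2 : ℝ) ^ J) ^ k := by
  classical
  obtain ⟨C, hC0, hC⟩ := SS_bound F hirr hdeg hne b κ hκ hb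
  obtain ⟨D, hD⟩ : ∃ D : ℝ, D = ∑' n : ℕ, 1 / (n : ℝ) ^ 2 := ⟨_, rfl⟩
  have hsm : Summable fun n : ℕ => 1 / (n : ℝ) ^ 2 := Real.summable_one_div_nat_pow.2 (by norm_num)
  refine ⟨Real.exp (-(C + κ ^ 2 * D)), Real.exp C, Real.exp_pos _, Real.exp_pos _, fun J hJ => ?_⟩
  have hJ' := hC J hJ
  rw [abs_le] at hJ'
  have h2J : (0 : ℝ) < 2 ^ J := by positivity
  have hpow : Real.exp (k * Real.log (2 ^ J)) = ((2 : ℝ) ^ J) ^ k := by
    rw [mul_comm, Real.exp_mul, Real.exp_log h2J, Real.rpow_natCast]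
  have hx : ∀ l ∈ (Pr κ J).filter (fun l => ¬ l ∣ b), (nu (QG b (GF F)) l : ℝ) / l ≤ κ / l ∧
      (nu (QG b (GF F)) l : ℝ) / l ≤ 1 / 2 := by
    intro l hl
    obtain ⟨h1, h2, h3, h4⟩ := mem_pr hκ hl
    have hl0 : (0 : ℝ) < l := by exact_mod_cast h1.pos
    have h5 : (nu (QG b (GF F)) l : ℝ) / l ≤ κ / l := by
      apply div_le_div_of_nonneg_right _ hl0.le
      exact_mod_cast hQ.few l h1
    refine ⟨h5, h5.trans ?_⟩
    rw [div_le_iff₀ hl0]
    have : (2 * κ : ℝ) < l := by exact_mod_cast h2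
    linarith
  constructor
  · have h1 : ∑ l ∈ (Pr κ J).filter (fun l => ¬ l ∣ b), ((nu (QG b (GF F)) l : ℝ) / l) ^ 2 ≤ κ ^ 2 * D := by
      calc ∑ l ∈ (Pr κ J).filter (fun l => ¬ l ∣ b), ((nu (QG b (GF F)) l : ℝ) / l) ^ 2
          ≤ ∑ l ∈ (Pr κ J).filter (fun l => ¬ l ∣ b), (κ : ℝ) ^ 2 * (1 / (l : ℝ) ^ 2) := by
            refine sum_le_sum fun l hl => ?_
            have h2 := pow_le_pow_left₀ (by positivity : (0 : ℝ) ≤ (nu (QG b (GF F)) l : ℝ) / l) (hx l hl).1 2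
            refine h2.trans (le_of_eq ?_)
            rw [div_pow]
            ring
        _ = (κ : ℝ) ^ 2 * ∑ l ∈ (Pr κ J).filter (fun l => ¬ l ∣ b), (1 / (l : ℝ) ^ 2) := by rw [mul_sum]
        _ ≤ (κ : ℝ) ^ 2 * D := by
            apply mul_le_mul_of_nonneg_left _ (by positivity)
            rw [hD]
            exact hsm.sum_le_tsum _ fun n _ => by positivity
    calc Real.exp (-(C + κ ^ 2 * D)) / ((2 : ℝ) ^ J) ^ k
        = Real.exp (-(C + κ ^ 2 * D) - k * Real.log (2 ^ J)) := by rw [Real.exp_sub, hpow]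
      _ ≤ Real.exp (∑ l ∈ (Pr κ J).filter (fun l => ¬ l ∣ b),
            (-((nu (QG b (GF F)) l : ℝ) / l + ((nu (QG b (GF F)) l : ℝ) / l) ^ 2))) := by
          apply Real.exp_le_exp.2
          rw [sum_neg_distrib, sum_add_distrib]
          have h3 := hJ'.2
          unfold SS at h3
          linarith
      _ = ∏ l ∈ (Pr κ J).filter (fun l => ¬ l ∣ b),
            Real.exp (-((nu (QG b (GF F)) l : ℝ) / l + ((nu (QG b (GF F)) l : ℝ) / l) ^ 2)) := by
          rw [Real.exp_sum]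
      _ ≤ _ := by
          apply Finset.prod_le_prod (fun l _ => (Real.exp_pos _).le)
          intro l hl
          exact exp_low (by positivity) (hx l hl).2
  · calc ∏ l ∈ (Pr κ J).filter (fun l => ¬ l ∣ b), (1 - (nu (QG b (GF F)) l : ℝ) / l)
        ≤ ∏ l ∈ (Pr κ J).filter (fun l => ¬ l ∣ b), Real.exp (-((nu (QG b (GF F)) l : ℝ) / l)) := by
          apply Finset.prod_le_prod
          · intro l hl
            have := (hx l hl).2
            linarith
          · intro l _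
            have := Real.add_one_le_exp (-((nu (QG b (GF F)) l : ℝ) / l))
            linarith
      _ = Real.exp (-SS b (GF F) κ J) := by
          rw [← Real.exp_sum, sum_neg_distrib]
          rfl
      _ ≤ Real.exp (C - k * Real.log (2 ^ J)) := by
          apply Real.exp_le_exp.2
          linarith [hJ'.1]
      _ = _ := by rw [Real.exp_sub, hpow]

end Pool.Agent.V7H56.PB
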